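import Pool.Agent.helper24.CG.Spec

/-!
# Row NUB: crude bounds for the weights
-/

set_option autoImplicit false

namespace Pool.Agent.helper24.CG

open Finset

theorem NUB_one_le {α : Type} [DecidableEq α] (b m : ℕ) (S : Finset α) (H : List (Finset α)) :
    1 ≤ gain b m S H := by
  unfold gain
  induction H with
  | nil => simp
  | cons E H ih =>
    rw [List.map_cons, List.prod_cons]
    have h : (0 : ℝ) ≤ (b : ℝ) * ((E ∩ S).card : ℝ) / (m : ℝ) := by positivity
    nlinarith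

theorem NUB_gain_le {α : Type} [DecidableEq α] (b m : ℕ) (hm : 1 ≤ m) (S : Finset α)
    (H : List (Finset α)) :
    gain b m S H ≤ (1 + (b : ℝ)) ^ (H.map fun E => (E ∩ S).card).sum := by
  unfold gain
  induction H with
  | nil => simp
  | cons E H ih =>
    rw [List.map_cons, List.prod_cons, List.map_cons, List.sum_cons, pow_add]
    have h0 : (0 : ℝ) ≤ (b : ℝ) * ((E ∩ S).card : ℝ) / (m : ℝ) := by positivity
    have h1 : (b : ℝ) * ((E ∩ S).card : ℝ) / (m : ℝ) ≤ ((E ∩ S).card : ℝ) * b := by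
      rw [mul_comm (b : ℝ)]
      refine div_le_self (by positivity) ?_
      exact_mod_cast hm
    have h2 : 1 + ((E ∩ S).card : ℝ) * (b : ℝ) ≤ (1 + (b : ℝ)) ^ (E ∩ S).card :=
      one_add_mul_le_pow (by have : (0 : ℝ) ≤ b := Nat.cast_nonneg _
                             linarith) _
    have h3 : (0 : ℝ) ≤ (H.map fun E => 1 + (b : ℝ) * ((E ∩ S).card : ℝ) / (m : ℝ)).prod :=
      le_trans zero_le_one (NUB_one_le b m S H)
    exact mul_le_mul (by linarith) ih h3 (by positivity)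

theorem NUB (h : HLN_stmt) : NUB_stmt := by
  intro N m b q H Bk B hN hm hB hH
  refine ⟨fun F => NUB_one_le b m _ H, ?_⟩
  obtain ⟨-, -, h3, -⟩ := h N m H hH
  have hb : (1 : ℝ) ≤ 1 + (b : ℝ) := by
    have : (0 : ℝ) ≤ b := Nat.cast_nonneg _
    linarith
  have h1 : ∀ F ∈ fam N q Bk B ∅, nu b m H B F ≤ (1 + (b : ℝ)) ^ (q ^ 2) := by
    intro F hF
    unfold fam at hF
    rw [mem_filter] at hF
    refine le_trans (NUB_gain_le b m hm _ H) (pow_le_pow_right₀ hb (le_trans (h3 _) ?_))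
    have hc : (B ∪ F).card ≤ q := by
      have := card_union_le B F
      omega
    calc (rest (B ∪ F) B).card ≤ (ed (B ∪ F)).card := card_le_card sdiff_subset
      _ = (B ∪ F).card.choose 2 := by unfold ed; rw [card_powersetCard]
      _ ≤ (B ∪ F).card ^ 2 := Nat.choose_le_pow _ _
      _ ≤ q ^ 2 := Nat.pow_le_pow_left hc 2
  have h2 : ((fam N q Bk B ∅).card : ℝ) ≤ (N : ℝ) ^ q := by
    have hs : fam N q Bk B ∅ ⊆ (univ : Finset (Fin N)).powersetCard (q - B.card) := by
      intro F hF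
      unfold fam at hF
      rw [mem_filter] at hF
      rw [mem_powersetCard]
      exact ⟨subset_univ _, hF.2.1⟩
    have hc : (fam N q Bk B ∅).card ≤ N ^ q := by
      calc (fam N q Bk B ∅).card ≤ _ := card_le_card hs
        _ = N.choose (q - B.card) := by rw [card_powersetCard, card_univ, Fintype.card_fin]
        _ ≤ N ^ (q - B.card) := Nat.choose_le_pow _ _
        _ ≤ N ^ q := Nat.pow_le_pow_right hN (Nat.sub_le _ _)
    exact_mod_cast hc
  calc ∑ F ∈ fam N q Bk B ∅, nu b m H B F ≤ ∑ _F ∈ fam N q Bk B ∅, (1 + (b : ℝ)) ^ (q ^ 2) :=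
        sum_le_sum h1
    _ = ((fam N q Bk B ∅).card : ℝ) * (1 + (b : ℝ)) ^ (q ^ 2) := by rw [sum_const, nsmul_eq_mul]
    _ ≤ (N : ℝ) ^ q * (1 + (b : ℝ)) ^ (q ^ 2) := mul_le_mul_of_nonneg_right h2 (by positivity)

end Pool.Agent.helper24.CG
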